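import Pool.Agent.U540.SJ.Red

/-! The number of good words. -/

namespace Pool.Agent.U540.SJ

universe u v

open Finset

section lists

variable {β : Type} [LinearOrder β]

theorem goodJ_iff {d : ℕ} {w : List β} : ¬ GoodJ d w ↔
    ∃ (u0 u1 : List β) (B : List (β × List β)), B.length = d ∧
      w = u0 ++ (B.map fun b => b.1 :: b.2).flatten ++ u1 ∧
      (B.map Prod.fst).Pairwise (· > ·) ∧ ∀ b ∈ B, ∀ y ∈ b.2, y < b.1 := by
  unfold GoodJ
  rw [not_not]
  constructor
  · rintro ⟨u0, u1, B, h1, h2, h3⟩
    refine ⟨u0, u1, List.ofFn B, by simp, ?_, ?_, ?_⟩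
    · rw [h1, List.map_ofFn]
      rfl
    · rw [List.map_ofFn, List.pairwise_ofFn]
      intro i j hij
      exact h2 hij
    · intro b hb
      rw [List.mem_ofFn] at hb
      obtain ⟨i, rfl⟩ := hb
      exact h3 i
  · rintro ⟨u0, u1, B, h0, h1, h2, h3⟩
    obtain ⟨B', rfl⟩ := Pool.Agent.H67.PI.exists_ofFn B h0
    refine ⟨u0, u1, B', ?_, ?_, ?_⟩
    · rw [h1, List.map_ofFn]
      rfl
    · intro i j hij
      rw [List.map_ofFn, List.pairwise_ofFn] at h2
      exact h2 hij
    · intro k
      exact h3 (B' k) (by rw [List.mem_ofFn]; exact ⟨k, rfl⟩)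

theorem GoodJ.factor {d : ℕ} {p w q : List β} (h : GoodJ d (p ++ w ++ q)) : GoodJ d w := by
  by_contra hc
  rw [goodJ_iff] at hc
  obtain ⟨u0, u1, B, h0, h1, h2, h3⟩ := hc
  apply goodJ_iff.2 ⟨p ++ u0, u1 ++ q, B, h0, ?_, h2, h3⟩ h
  rw [h1]
  simp

theorem not_goodJ_zero (w : List β) : ¬ GoodJ 0 w := by
  rw [goodJ_iff]
  exact ⟨w, [], [], rfl, by simp, by simp, by simp⟩

/-- the part to the right of the largest letter -/
theorem GoodJ.right {d : ℕ} {p w : List β} {x : β} (h : GoodJ (d + 1) (p ++ x :: w))
    (hx : ∀ y ∈ w, y < x) : GoodJ d w := by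
  by_contra hc
  rw [goodJ_iff] at hc
  obtain ⟨u0, u1, B, h0, h1, h2, h3⟩ := hc
  apply goodJ_iff.2 ⟨p, u1, (x, u0) :: B, by simp [h0], ?_, ?_, ?_⟩ h
  · rw [h1]
    simp
  · rw [List.map_cons, List.pairwise_cons]
    refine ⟨?_, h2⟩
    intro y hy
    rw [List.mem_map] at hy
    obtain ⟨b, hb, rfl⟩ := hy
    apply hx
    rw [h1]
    simp only [List.mem_append, List.mem_flatten, List.mem_map]
    left; right
    exact ⟨b.1 :: b.2, ⟨b, hb, rfl⟩, by simp⟩
  · intro b hb
    rw [List.mem_cons] at hb
    rcases hb with rfl | hb
    · intro y hy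
      apply hx
      rw [h1]
      simp only [List.mem_append]
      left; left
      exact hy
    · exact h3 b hb

/-- good arrangements of the finite set `X` -/
def S (d : ℕ) (X : Finset β) : Set (List β) := {v | v.Nodup ∧ v.toFinset = X ∧ GoodJ d v}

theorem S_finite (d : ℕ) (X : Finset β) : (S d X).Finite := by
  refine (X.toList.permutations.toFinset.finite_toSet).subset ?_
  rintro v ⟨h1, h2, -⟩
  simp only [List.coe_toFinset, Set.mem_ofPred_eq, List.mem_permutations]
  subst h2
  rw [List.perm_ext_iff_of_nodup h1 (Finset.nodup_toList _)]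
  intro a
  simp

theorem S_rec (d : ℕ) (X : Finset β) (x : β) (hx : x ∈ X) (hmax : ∀ y ∈ X, y ≤ x) :
    (S (d + 1) X).ncard ≤ ∑ Z ∈ (X.erase x).powerset,
      (S (d + 1) (X.erase x \ Z)).ncard * (S d Z).ncard := by
  have hsub : S (d + 1) X ⊆ ⋃ Z ∈ (X.erase x).powerset,
      (fun p : List β × List β => p.1 ++ x :: p.2) ''
        ((S (d + 1) (X.erase x \ Z)) ×ˢ (S d Z)) := by
    rintro v ⟨h1, h2, h3⟩
    have hxv : x ∈ v := by
      rw [← List.mem_toFinset, h2]
      exact hx
    obtain ⟨L, R, rfl⟩ := List.append_of_mem hxv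
    rw [List.nodup_append] at h1
    obtain ⟨hL, hR, hdis⟩ := h1
    rw [List.nodup_cons] at hR
    have hLx : x ∉ L := fun h => hdis x h x (by simp) rfl
    have hRX : ∀ y ∈ R, y ∈ X := by
      intro y hy
      rw [← h2]
      simp [hy]
    have hLX : ∀ y ∈ L, y ∈ X := by
      intro y hy
      rw [← h2]
      simp [hy]
    simp only [Set.mem_iUnion]
    refine ⟨R.toFinset, ?_, (L, R), ⟨⟨hL, ?_, ?_⟩, ⟨hR.2, rfl, ?_⟩⟩, rfl⟩
    · rw [Finset.mem_powerset]
      intro y hy
      rw [List.mem_toFinset] at hy
      rw [Finset.mem_erase]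
      refine ⟨fun h => hR.1 (h ▸ hy), hRX y hy⟩
    · ext y
      simp only [List.mem_toFinset, Finset.mem_sdiff, Finset.mem_erase]
      constructor
      · intro hy
        refine ⟨⟨fun h => hLx (h ▸ hy), hLX y hy⟩, fun hyR => ?_⟩
        exact hdis y hy y (by simp [hyR]) rfl
      · rintro ⟨⟨h4, h5⟩, h6⟩
        rw [← h2] at h5
        simp only [List.mem_toFinset, List.mem_append, List.mem_cons] at h5
        rcases h5 with h5 | h5 | h5
        · exact h5
        · exact absurd h5 h4
        · exact absurd h5 h6
    · have h4 : GoodJ (d + 1) ([] ++ L ++ x :: R) := by simpa using h3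
      exact h4.factor
    · apply h3.right
      intro y hy
      refine lt_of_le_of_ne (hmax y (hRX y hy)) ?_
      rintro rfl
      exact hR.1 hy
  have hfin : ∀ Z : Finset β, ((fun p : List β × List β => p.1 ++ x :: p.2) ''
      ((S (d + 1) (X.erase x \ Z)) ×ˢ (S d Z))).Finite :=
    fun Z => ((S_finite _ _).prod (S_finite _ _)).image _
  calc (S (d + 1) X).ncard ≤ (⋃ Z ∈ (X.erase x).powerset,
      (fun p : List β × List β => p.1 ++ x :: p.2) ''
        ((S (d + 1) (X.erase x \ Z)) ×ˢ (S d Z))).ncard := by
        refine Set.ncard_le_ncard hsub ?_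
        exact Set.Finite.biUnion (Finset.finite_toSet _) (fun Z _ => hfin Z)
    _ ≤ ∑ Z ∈ (X.erase x).powerset, ((fun p : List β × List β => p.1 ++ x :: p.2) ''
        ((S (d + 1) (X.erase x \ Z)) ×ˢ (S d Z))).ncard := by
        classical
        exact Finset.set_ncard_biUnion_le _ _
    _ ≤ _ := by
        apply Finset.sum_le_sum
        intro Z _
        refine (Set.ncard_image_le ((S_finite _ _).prod (S_finite _ _))).trans ?_
        rw [Set.ncard_prod]

theorem hockey (q n : ℕ) : ∑ i ∈ range n, (i + q).choose q = (n + q).choose (q + 1) := by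
  induction n with
  | zero => simp
  | succ n ih =>
    rw [Finset.sum_range_succ, ih]
    have : n + 1 + q = (n + q) + 1 := by ring
    rw [this, Nat.choose_succ_succ]
    ring

theorem S_bound (d : ℕ) : ∀ ε : ℝ, 0 < ε → ∃ K : ℝ, 0 < K ∧ ∀ X : Finset β,
    ((S d X).ncard : ℝ) ≤ K * ε ^ X.card * (X.card.factorial : ℝ) := by
  induction d with
  | zero =>
    intro ε hε
    refine ⟨1, one_pos, fun X => ?_⟩
    have : S 0 X = ∅ := by
      ext v
      simp only [S, Set.mem_ofPred_eq, Set.mem_empty_iff_false, iff_false]
      rintro ⟨-, -, h⟩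
      exact not_goodJ_zero v h
    rw [this, Set.ncard_empty, Nat.cast_zero]
    positivity
  | succ d ih =>
    intro ε hε
    obtain ⟨K, hK, hb⟩ := ih (ε / 2) (by positivity)
    set δ := ε / 2 with hδ
    have hδ0 : 0 < δ := by positivity
    obtain ⟨q, hq⟩ := exists_nat_ge (K / δ)
    have hKq : K ≤ δ * (q + 1) := by
      have : K ≤ δ * q := by
        rw [div_le_iff₀ hδ0] at hq
        linarith [mul_comm δ (q : ℝ)]
      nlinarith
    have key : ∀ n : ℕ, ∀ X : Finset β, X.card = n →
        ((S (d + 1) X).ncard : ℝ) ≤ ((n + q).choose q : ℝ) * δ ^ n * (n.factorial : ℝ) := by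
      intro n
      induction n using Nat.strong_induction_on with
      | _ n ihn =>
        intro X hX
        rcases Nat.eq_zero_or_pos n with rfl | hn
        · rw [Finset.card_eq_zero] at hX
          subst hX
          have : S (d + 1) (∅ : Finset β) ⊆ {[]} := by
            rintro v ⟨-, h, -⟩
            simpa using h
          have h1 := Set.ncard_le_ncard this (Set.finite_singleton _)
          rw [Set.ncard_singleton] at h1
          simpa using h1
        · have hne : X.Nonempty := Finset.card_pos.1 (by omega)
          have hrec := S_rec d X (X.max' hne) (X.max'_mem hne) (fun y hy => X.le_max' y hy)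
          set x := X.max' hne
          have hcard : (X.erase x).card = n - 1 := by
            rw [Finset.card_erase_of_mem (X.max'_mem hne), hX]
          obtain ⟨m, rfl⟩ : ∃ m, n = m + 1 := ⟨n - 1, by omega⟩
          rw [Nat.add_sub_cancel] at hcard
          have h1 : ((S (d + 1) X).ncard : ℝ) ≤ ∑ Z ∈ (X.erase x).powerset,
              ((((m - Z.card) + q).choose q : ℝ) * δ ^ (m - Z.card) *
                ((m - Z.card).factorial : ℝ)) * (K * δ ^ Z.card * (Z.card.factorial : ℝ)) := by
            calc ((S (d + 1) X).ncard : ℝ) ≤ ((∑ Z ∈ (X.erase x).powerset,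
                (S (d + 1) (X.erase x \ Z)).ncard * (S d Z).ncard : ℕ) : ℝ) := by
                  exact_mod_cast hrec
              _ = ∑ Z ∈ (X.erase x).powerset,
                ((S (d + 1) (X.erase x \ Z)).ncard : ℝ) * ((S d Z).ncard : ℝ) := by
                  push_cast; rfl
              _ ≤ _ := by
                  apply Finset.sum_le_sum
                  intro Z hZ
                  rw [Finset.mem_powerset] at hZ
                  have hc : (X.erase x \ Z).card = m - Z.card := by
                    rw [Finset.card_sdiff_of_subset hZ, hcard]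
                  apply mul_le_mul
                  · exact ihn (m - Z.card) (by omega) _ hc
                  · exact hb Z
                  · positivity
                  · positivity
          have h2 := Finset.sum_powerset_apply_card (x := X.erase x)
            (fun j => ((((m - j) + q).choose q : ℝ) *
              δ ^ (m - j) * ((m - j).factorial : ℝ)) * (K * δ ^ j * (j.factorial : ℝ)))
          rw [h2, hcard] at h1
          have h3 : ∀ j ∈ range (m + 1), m.choose j • (((((m - j) + q).choose q : ℝ) *
              δ ^ (m - j) * ((m - j).factorial : ℝ)) * (K * δ ^ j * (j.factorial : ℝ))) =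
              K * δ ^ m * (m.factorial : ℝ) * (((m - j) + q).choose q : ℝ) := by
            intro j hj
            have hj' : j ≤ m := by
              rw [Finset.mem_range] at hj
              omega
            have h4 : (m.choose j : ℝ) * (j.factorial : ℝ) * ((m - j).factorial : ℝ) =
                (m.factorial : ℝ) := by
              exact_mod_cast Nat.choose_mul_factorial_mul_factorial hj'
            have h5 : δ ^ (m - j) * δ ^ j = δ ^ m := by
              rw [← pow_add]
              congr 1
              omega
            rw [nsmul_eq_mul, ← h4, ← h5]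
            ring
          rw [Finset.sum_congr rfl h3, ← Finset.mul_sum] at h1
          have h6 : ∑ j ∈ range (m + 1), (((m - j) + q).choose q : ℝ) =
              ((m + 1 + q).choose (q + 1) : ℝ) := by
            rw [← hockey q (m + 1)]
            push_cast
            rw [← Finset.sum_range_reflect]
            apply Finset.sum_congr rfl
            intro j hj
            congr 2
            rw [Finset.mem_range] at hj
            omega
          rw [h6] at h1
          refine h1.trans ?_
          have h7 : ((m + 1 + q).choose (q + 1) : ℝ) * (q + 1) =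
              ((m + 1 + q).choose q : ℝ) * (m + 1) := by
            have := Nat.choose_succ_right_eq (m + 1 + q) q
            rw [Nat.add_sub_cancel] at this
            exact_mod_cast this
          have h8 : ((m + 1).factorial : ℝ) = (m + 1) * (m.factorial : ℝ) := by
            rw [Nat.factorial_succ]
            push_cast
            ring
          rw [h8, pow_succ]
          have h9 : K * ((m + 1 + q).choose (q + 1) : ℝ) ≤
              δ * (((m + 1 + q).choose q : ℝ) * (m + 1)) := by
            rw [← h7]
            have : (0 : ℝ) ≤ ((m + 1 + q).choose (q + 1) : ℝ) := by positivity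
            nlinarith
          have h10 : 0 ≤ δ ^ m * (m.factorial : ℝ) := by positivity
          calc K * δ ^ m * (m.factorial : ℝ) * ((m + 1 + q).choose (q + 1) : ℝ)
              = (K * ((m + 1 + q).choose (q + 1) : ℝ)) * (δ ^ m * (m.factorial : ℝ)) := by ring
            _ ≤ (δ * (((m + 1 + q).choose q : ℝ) * (m + 1))) * (δ ^ m * (m.factorial : ℝ)) :=
                mul_le_mul_of_nonneg_right h9 h10
            _ = _ := by ring
    refine ⟨2 ^ q, by positivity, fun X => ?_⟩
    refine (key X.card X rfl).trans ?_
    have h1 : (((X.card + q).choose q : ℕ) : ℝ) ≤ 2 ^ (X.card + q) := by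
      exact_mod_cast Nat.choose_le_two_pow _ _
    calc (((X.card + q).choose q : ℕ) : ℝ) * δ ^ X.card * (X.card.factorial : ℝ)
        ≤ 2 ^ (X.card + q) * δ ^ X.card * (X.card.factorial : ℝ) := by gcongr
      _ = 2 ^ q * ε ^ X.card * (X.card.factorial : ℝ) := by
        rw [hδ, div_pow, pow_add]
        field_simp

end lists

end Pool.Agent.U540.SJ
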