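import Pool.Agent.H67.PI.Emb

/-! The associative algebra generated by a finite set `a` is spanned by the products of one element
of the Jordan algebra `J` generated by `a` and at most `k + 1` of the `k` generators. -/

namespace Pool.Agent.U540.SJ

universe u v

open Submodule Pointwise

section

variable {F : Type u} [Field F] {C : Type v} [Ring C] [Algebra F C]

/-- `J * J ≤ J + J * V`, if the Jordan algebra `J` is generated by `V` -/
theorem mul_self_le (h2 : (2 : F) ≠ 0) (J V : Submodule F C)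
    (hJ : ∀ x ∈ J, ∀ y ∈ J, x * y + y * x ∈ J) (hV : V ≤ J)
    (hmin : ∀ S : Submodule F C, V ≤ S → (∀ x ∈ S, ∀ y ∈ S, x * y + y * x ∈ S) → J ≤ S) :
    J * J ≤ J ⊔ J * V := by
  set N : Submodule F C := J ⊔ J * V with hN
  have half : ∀ z : C, z + z ∈ N → z ∈ N := by
    intro z hz
    have h1 : (2 : F)⁻¹ • (z + z) = z := by
      rw [← two_smul F z, smul_smul, inv_mul_cancel₀ h2, one_smul]
    rw [← h1]
    exact N.smul_mem _ hz
  let K : Submodule F C :=
    { carrier := {u | u ∈ J ∧ ∀ w ∈ J, u * w ∈ N ∧ w * u ∈ N}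
      add_mem' := by
        rintro x y ⟨hx, hx'⟩ ⟨hy, hy'⟩
        refine ⟨J.add_mem hx hy, fun w hw => ⟨?_, ?_⟩⟩
        · rw [add_mul]; exact N.add_mem (hx' w hw).1 (hy' w hw).1
        · rw [mul_add]; exact N.add_mem (hx' w hw).2 (hy' w hw).2
      zero_mem' := by
        refine ⟨J.zero_mem, fun w _ => ?_⟩
        simp
      smul_mem' := by
        rintro c x ⟨hx, hx'⟩
        refine ⟨J.smul_mem c hx, fun w hw => ⟨?_, ?_⟩⟩
        · rw [smul_mul_assoc]; exact N.smul_mem _ (hx' w hw).1
        · rw [mul_smul_comm]; exact N.smul_mem _ (hx' w hw).2 }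
  have hVK : V ≤ K := by
    intro x hx
    refine ⟨hV hx, fun w hw => ?_⟩
    have h1 : w * x ∈ N := le_sup_right (a := J) (Submodule.mul_mem_mul hw hx)
    refine ⟨?_, h1⟩
    have h3 : x * w = (x * w + w * x) - w * x := by abel
    rw [h3]
    exact N.sub_mem (le_sup_left (b := J * V) (hJ x (hV hx) w hw)) h1
  have hK : J ≤ K := by
    apply hmin K hVK
    rintro x ⟨hx, hx'⟩ y ⟨hy, hy'⟩
    refine ⟨hJ x hx y hy, fun w hw => ?_⟩
    have e1 := hx' _ (hJ y hy w hw)
    have e2 := hy' _ (hJ w hw x hx)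
    have hc : (x * y + y * x) * w - w * (x * y + y * x) ∈ N := by
      have : (x * y + y * x) * w - w * (x * y + y * x) =
          (x * (y * w + w * y) - (y * w + w * y) * x) +
          (y * (w * x + x * w) - (w * x + x * w) * y) := by noncomm_ring
      rw [this]
      exact N.add_mem (N.sub_mem e1.1 e1.2) (N.sub_mem e2.1 e2.2)
    have hs : (x * y + y * x) * w + w * (x * y + y * x) ∈ N :=
      le_sup_left (b := J * V) (hJ _ (hJ x hx y hy) w hw)
    constructor
    · apply half
      have := N.add_mem hc hs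
      convert this using 1
      abel
    · apply half
      have := N.sub_mem hs hc
      convert this using 1
      abel
  rw [Submodule.mul_le]
  intro x hx y hy
  exact ((hK hx).2 y hy).1

theorem pow_mul_self_le (J V : Submodule F C)
    (hJJ : J * J ≤ J ⊔ J * V) (n : ℕ) :
    (1 ⊔ J) ^ n * J ≤ J * (1 ⊔ V) ^ n := by
  induction n with
  | zero => simp
  | succ n ih =>
    calc (1 ⊔ J) ^ (n + 1) * J = (1 ⊔ J) * ((1 ⊔ J) ^ n * J) := by rw [pow_succ', mul_assoc]
      _ ≤ (1 ⊔ J) * (J * (1 ⊔ V) ^ n) := mul_le_mul_right ih _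
      _ = ((1 ⊔ J) * J) * (1 ⊔ V) ^ n := by rw [mul_assoc]
      _ ≤ (J * (1 ⊔ V)) * (1 ⊔ V) ^ n := by
          refine mul_le_mul_left ?_ _
          rw [Submodule.sup_mul, one_mul, Submodule.mul_sup, mul_one]
          exact sup_le le_sup_left hJJ
      _ = J * (1 ⊔ V) ^ (n + 1) := by rw [mul_assoc, ← pow_succ']

theorem list_prod_mem (J : Submodule F C) (l : List C) (hl : ∀ x ∈ l, x ∈ J) :
    l.prod ∈ (1 ⊔ J) ^ l.length := by
  induction l with
  | nil =>
    rw [List.prod_nil, List.length_nil, pow_zero]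
    exact Submodule.one_le.1 le_rfl
  | cons x l ih =>
    rw [List.prod_cons, List.length_cons, pow_succ']
    exact Submodule.mul_mem_mul (le_sup_right (a := (1 : Submodule F C)) (hl x (by simp)))
      (ih fun y hy => hl y (by simp [hy]))

/-- an element of `J` anticommutes with a product of elements of `J` up to shorter products -/
theorem swap_mem (J : Submodule F C) (hJ : ∀ x ∈ J, ∀ y ∈ J, x * y + y * x ∈ J)
    (z : C) (hz : z ∈ J) (l : List C) (hl : ∀ x ∈ l, x ∈ J) :
    z * l.prod - (-1 : ℤ) ^ l.length • (l.prod * z) ∈ (1 ⊔ J) ^ l.length := by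
  induction l with
  | nil => simp
  | cons y t ih =>
    have hy : y ∈ J := hl y (by simp)
    have ht : ∀ x ∈ t, x ∈ J := fun x hx => hl x (by simp [hx])
    have h1 := ih ht
    have h3 : (z * y + y * z) * t.prod ∈ (1 ⊔ J) ^ (t.length + 1) := by
      rw [pow_succ']
      exact Submodule.mul_mem_mul (le_sup_right (a := (1 : Submodule F C)) (hJ z hz y hy))
        (list_prod_mem J t ht)
    have h4 : y * (z * t.prod - (-1 : ℤ) ^ t.length • (t.prod * z)) ∈
        (1 ⊔ J) ^ (t.length + 1) := by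
      rw [pow_succ']
      exact Submodule.mul_mem_mul (le_sup_right (a := (1 : Submodule F C)) hy) h1
    have h5 := Submodule.sub_mem _ h3 h4
    rw [List.length_cons, List.prod_cons]
    convert h5 using 1
    rw [pow_succ]
    simp only [add_mul, mul_sub, mul_smul_comm, mul_assoc, mul_neg, mul_one, neg_smul]
    abel

/-- a product of elements of `J` with a repeated factor is a sum of shorter products -/
theorem dup_mem (h2 : (2 : F) ≠ 0) (J : Submodule F C)
    (hJ : ∀ x ∈ J, ∀ y ∈ J, x * y + y * x ∈ J)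
    (z : C) (hz : z ∈ J) (l1 l2 l3 : List C) (hl1 : ∀ x ∈ l1, x ∈ J) (hl2 : ∀ x ∈ l2, x ∈ J)
    (hl3 : ∀ x ∈ l3, x ∈ J) :
    (l1 ++ (z :: l2) ++ (z :: l3)).prod ∈ (1 ⊔ J) ^ (l1.length + (l2.length + 1) + l3.length) := by
  have hzz : z * z ∈ J := by
    have h1 : z * z = (2 : F)⁻¹ • (z * z + z * z) := by
      rw [← two_smul F (z * z), smul_smul, inv_mul_cancel₀ h2, one_smul]
    rw [h1]
    exact J.smul_mem _ (hJ z hz z hz)
  have h1 := swap_mem J hJ z hz l2 hl2
  have h3 : z * l2.prod * z ∈ (1 ⊔ J) ^ (l2.length + 1) := by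
    have e : z * l2.prod * z = (z * l2.prod - (-1 : ℤ) ^ l2.length • (l2.prod * z)) * z +
        (-1 : ℤ) ^ l2.length • (l2.prod * (z * z)) := by
      rw [sub_mul, smul_mul_assoc, mul_assoc l2.prod z z]
      abel
    rw [e, pow_succ]
    apply Submodule.add_mem
    · exact Submodule.mul_mem_mul h1 (le_sup_right (a := (1 : Submodule F C)) hz)
    · apply zsmul_mem
      exact Submodule.mul_mem_mul (list_prod_mem J l2 hl2)
        (le_sup_right (a := (1 : Submodule F C)) hzz)
  have h4 := Submodule.mul_mem_mul (Submodule.mul_mem_mul (list_prod_mem J l1 hl1) h3)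
    (list_prod_mem J l3 hl3)
  rw [← pow_add, ← pow_add] at h4
  convert h4 using 1
  simp [List.prod_append, List.prod_cons, mul_assoc]

theorem pow_sup (V : Submodule F C) (n : ℕ) :
    (1 ⊔ V) ^ (n + 1) = (1 ⊔ V) ^ n ⊔ V ^ (n + 1) := by
  induction n with
  | zero => simp
  | succ n ih =>
    rw [pow_succ', ih, Submodule.sup_mul, one_mul, Submodule.mul_sup, ← pow_succ' V (n + 1)]
    apply le_antisymm
    · refine sup_le le_sup_left (sup_le ?_ le_sup_right)
      refine le_trans ?_ le_sup_left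
      rw [← ih, pow_succ']
      exact mul_le_mul_left le_sup_right _
    · refine sup_le le_sup_left (le_trans le_sup_right le_sup_right)

theorem one_sup_pow_mono (J : Submodule F C) {m n : ℕ} (h : m ≤ n) :
    (1 ⊔ J) ^ m ≤ (1 ⊔ J) ^ n := by
  obtain ⟨d, rfl⟩ := Nat.exists_eq_add_of_le h
  rw [pow_add]
  calc (1 ⊔ J) ^ m = (1 ⊔ J) ^ m * 1 := (mul_one _).symm
    _ ≤ (1 ⊔ J) ^ m * (1 ⊔ J) ^ d := by
      refine mul_le_mul_right ?_ _
      clear * -
      induction d with
      | zero => simp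
      | succ d ih =>
        rw [pow_succ]
        calc (1 : Submodule F C) = 1 * 1 := (one_mul _).symm
          _ ≤ _ := mul_le_mul' ih le_sup_left

/-- a product of `k + 1` of the `k` generators is a sum of products of `k` elements of `J` -/
theorem gen_pow_le (h2 : (2 : F) ≠ 0) (J : Submodule F C)
    (hJ : ∀ x ∈ J, ∀ y ∈ J, x * y + y * x ∈ J) {k : ℕ} (a : Fin k → C) (ha : ∀ i, a i ∈ J) :
    (Submodule.span F (Set.range a)) ^ (k + 1) ≤ (1 ⊔ J) ^ k := by
  rw [Submodule.span_pow, Submodule.span_le]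
  intro x hx
  rw [Set.mem_pow] at hx
  obtain ⟨f, rfl⟩ := hx
  choose g hg using fun i => (f i).2
  have hl : (List.ofFn fun i => ((f i : C))) = (List.ofFn g).map a := by
    rw [List.map_ofFn]
    congr 1
    funext i
    exact (hg i).symm
  rw [hl]
  have hnd : ¬ (List.ofFn g).Nodup := by
    intro h
    have := h.length_le_card
    simp at this
  obtain ⟨x, hx⟩ := List.exists_duplicate_iff_not_nodup.2 hnd
  rw [List.duplicate_iff_sublist] at hx
  obtain ⟨u0, B, hB1, hB2⟩ := Pool.Agent.H67.PI.blocks hx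
  obtain ⟨b, b', rfl⟩ : ∃ b b', B = [b, b'] := by
    have h1 := congrArg List.length hB2
    simp only [List.length_map, List.length_cons, List.length_nil] at h1
    exact List.length_eq_two.1 h1
  simp only [List.map_cons, List.map_nil, List.cons.injEq, and_true] at hB2
  obtain ⟨hb, hb'⟩ := hB2
  simp only [List.map_cons, List.map_nil, List.flatten_cons, List.flatten_nil,
    List.append_nil, hb, hb'] at hB1
  have hlen := congrArg List.length hB1
  simp at hlen
  have h3 := dup_mem h2 J hJ (a x) (ha x) (u0.map a) (b.2.map a) (b'.2.map a)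
    (by intro y hy; rw [List.mem_map] at hy; obtain ⟨i, _, rfl⟩ := hy; exact ha i)
    (by intro y hy; rw [List.mem_map] at hy; obtain ⟨i, _, rfl⟩ := hy; exact ha i)
    (by intro y hy; rw [List.mem_map] at hy; obtain ⟨i, _, rfl⟩ := hy; exact ha i)
  have e1 : (List.ofFn g).map a = u0.map a ++ (a x :: b.2.map a) ++ (a x :: b'.2.map a) := by
    rw [hB1]
    simp
  rw [e1]
  have e2 : (u0.map a).length + ((b.2.map a).length + 1) + (b'.2.map a).length = k := by
    simp only [List.length_map]
    omega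
  rw [e2] at h3
  exact h3

/-- The associative algebra generated by the `a i`. -/
theorem adjoin_le (h2 : (2 : F) ≠ 0) (J : Submodule F C)
    (hJ : ∀ x ∈ J, ∀ y ∈ J, x * y + y * x ∈ J) {k : ℕ} (a : Fin k → C) (ha : ∀ i, a i ∈ J)
    (hmin : ∀ S : Submodule F C, (∀ i, a i ∈ S) → (∀ x ∈ S, ∀ y ∈ S, x * y + y * x ∈ S) → J ≤ S)
    (z : C) (hz : z ∈ NonUnitalAlgebra.adjoin F (Set.range a)) :
    z ∈ J * (1 ⊔ Submodule.span F (Set.range a)) ^ (k + 1) := by
  set V := Submodule.span F (Set.range a) with hV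
  have hVJ : V ≤ J := by
    rw [hV, Submodule.span_le]
    rintro _ ⟨i, rfl⟩
    exact ha i
  have hJJ : J * J ≤ J ⊔ J * V := by
    apply mul_self_le h2 J V hJ hVJ
    intro S hS
    apply hmin S
    intro i
    exact hS (Submodule.subset_span ⟨i, rfl⟩)
  have hVk : (1 ⊔ V) ^ (k + 1) ≤ (1 ⊔ J) ^ k := by
    rw [pow_sup]
    refine sup_le ?_ (gen_pow_le h2 J hJ a ha)
    exact pow_le_pow_left' (sup_le_sup_left hVJ 1) k
  have hstep : (1 ⊔ J) ^ (k + 1) * J ≤ (1 ⊔ J) ^ (k + 1) := by
    refine (pow_mul_self_le J V hJJ (k + 1)).trans ?_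
    rw [pow_succ' (1 ⊔ J)]
    exact mul_le_mul' le_sup_right hVk
  have hall : ∀ n, (1 ⊔ J) ^ (k + 1 + n) ≤ (1 ⊔ J) ^ (k + 1) := by
    intro n
    induction n with
    | zero => simp
    | succ n ih =>
      rw [← add_assoc, pow_succ]
      refine (mul_le_mul_left ih _).trans ?_
      rw [Submodule.mul_sup, mul_one]
      exact sup_le le_rfl hstep
  set T : Submodule F C := (1 ⊔ J) ^ (k + 1) * J with hT
  have hTT : T * T ≤ T := by
    have : T * T ≤ (1 ⊔ J) ^ (k + 1 + (1 + (k + 1))) * J := by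
      rw [hT, ← mul_assoc]
      refine mul_le_mul_left ?_ _
      rw [pow_add _ (k + 1), pow_add _ 1, pow_one, ← mul_assoc]
      refine mul_le_mul_left ?_ _
      exact mul_le_mul_right le_sup_right _
    exact this.trans (mul_le_mul_left (hall _) _)
  have hJT : J ≤ T := by
    calc J = 1 * J := (one_mul _).symm
      _ ≤ T := by
        refine mul_le_mul_left ?_ _
        have := one_sup_pow_mono J (Nat.zero_le (k + 1))
        simpa using this
  let A : NonUnitalSubalgebra F C :=
    { T with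
      mul_mem' := by
        intro x y hx hy
        exact hTT (Submodule.mul_mem_mul hx hy) }
  have hA : NonUnitalAlgebra.adjoin F (Set.range a) ≤ A := by
    rw [NonUnitalAlgebra.adjoin_le_iff]
    rintro _ ⟨i, rfl⟩
    exact hJT (ha i)
  have hzT : z ∈ T := hA hz
  exact pow_mul_self_le J V hJJ (k + 1) hzT

end

end Pool.Agent.U540.SJ
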