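import Pool.Agent.U540.SJ.Count
import Pool.Agent.U540.SJ.Span

/-! The associative envelope of a finitely generated special Jordan PI algebra satisfies a
multilinear identity. -/

namespace Pool.Agent.U540.SJ

universe u v

open Finset

section transfer

variable {α β : Type} [LinearOrder α] [LinearOrder β]

omit [LinearOrder α] [LinearOrder β] in
theorem lift_blocks (g : α → Option β) (Bs : List (β × List β)) (v : List α)
    (h : v.filterMap g = (Bs.map fun b => b.1 :: b.2).flatten) :
    ∃ (pre : List α) (Cs : List (α × List α)), v = pre ++ (Cs.map fun c => c.1 :: c.2).flatten ∧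
      (∀ z ∈ pre, g z = none) ∧
      List.Forall₂ (fun b c => g c.1 = some b.1 ∧ c.2.filterMap g = b.2) Bs Cs := by
  induction Bs generalizing v with
  | nil =>
    refine ⟨v, [], by simp, ?_, List.Forall₂.nil⟩
    simpa [List.filterMap_eq_nil_iff] using h
  | cons b Bs ih =>
    rw [List.map_cons, List.flatten_cons, List.cons_append, List.filterMap_eq_cons_iff] at h
    obtain ⟨l1, a, l2, rfl, hl1, ha, hl2⟩ := h
    rw [List.filterMap_eq_append_iff] at hl2
    obtain ⟨m1, m2, rfl, hm1, hm2⟩ := hl2
    obtain ⟨pre, Cs, rfl, hpre, hF⟩ := ih m2 hm2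
    refine ⟨l1, (a, m1 ++ pre) :: Cs, by simp, hl1, List.Forall₂.cons ⟨ha, ?_⟩ hF⟩
    rw [List.filterMap_append, hm1, List.filterMap_eq_nil_iff.2 hpre, List.append_nil]

/-- goodness passes to the subsequence of the letters in an upper part of the alphabet -/
theorem GoodJ.filterMap {d : ℕ} (g : α → Option β)
    (hg1 : ∀ z z' b b', g z = some b → g z' = some b' → b < b' → z < z')
    (hg2 : ∀ z z' b, g z = none → g z' = some b → z < z')
    {v : List α} (h : GoodJ d v) : GoodJ d (v.filterMap g) := by
  by_contra hc
  rw [goodJ_iff] at hc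
  obtain ⟨u0, u1, B, h0, h1, h2, h3⟩ := hc
  rw [List.filterMap_eq_append_iff] at h1
  obtain ⟨v0, v1, rfl, h4, h5⟩ := h1
  rw [List.filterMap_eq_append_iff] at h4
  obtain ⟨v00, v01, rfl, h6, h7⟩ := h4
  obtain ⟨pre, Cs, rfl, hpre, hF⟩ := lift_blocks g B v01 h7
  apply goodJ_iff.2 ⟨v00 ++ pre, v1, Cs, ?_, by simp, ?_, ?_⟩ h
  · rw [← h0]
    exact hF.length_eq.symm
  · clear h h7 h3 h0
    induction hF with
    | nil => simp
    | @cons b c Bs Cs hbc hF ih =>
      rw [List.map_cons, List.pairwise_cons] at h2 ⊢
      refine ⟨?_, ih h2.2⟩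
      intro y hy
      rw [List.mem_map] at hy
      obtain ⟨c', hc', rfl⟩ := hy
      obtain ⟨b', hb', hbc'⟩ : ∃ b' ∈ Bs, g c'.1 = some b'.1 := by
        clear ih h2
        induction hF with
        | nil => simp at hc'
        | @cons b1 c1 Bs Cs hbc1 hF ih =>
          rw [List.mem_cons] at hc'
          rcases hc' with rfl | hc'
          · exact ⟨b1, by simp, hbc1.1⟩
          · obtain ⟨b', hb', h⟩ := ih hc'
            exact ⟨b', by simp [hb'], h⟩
      exact hg1 _ _ _ _ hbc' hbc.1 (h2.1 b'.1 (List.mem_map_of_mem hb'))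
  · intro c hc y hy
    obtain ⟨b, hb, hbc⟩ : ∃ b ∈ B, g c.1 = some b.1 ∧ c.2.filterMap g = b.2 := by
      clear h h7 h3 h0 h2
      induction hF with
      | nil => simp at hc
      | @cons b1 c1 Bs Cs hbc1 hF ih =>
        rw [List.mem_cons] at hc
        rcases hc with rfl | hc
        · exact ⟨b1, by simp, hbc1⟩
        · obtain ⟨b', hb', h⟩ := ih hc
          exact ⟨b', by simp [hb'], h⟩
    rcases hgy : g y with _ | b'
    · exact hg2 _ _ _ hgy hbc.1
    · apply hg1 _ _ _ _ hgy hbc.1
      apply h3 b hb
      rw [← hbc.2, List.mem_filterMap]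
      exact ⟨y, hy, hgy⟩

end transfer

section count

/-- the letters `≥ k` -/
def up (k : ℕ) (z : ℕ) : Option ℕ := if k ≤ z then some z else none

theorem GoodJ.up {d k : ℕ} {v : List ℕ} (h : GoodJ d v) : GoodJ d (v.filterMap (up k)) := by
  apply h.filterMap
  · intro z z' b b' h1 h2 h3
    unfold SJ.up at h1 h2
    split_ifs at h1 h2
    simp only [Option.some.injEq] at h1 h2
    omega
  · intro z z' b h1 h2
    unfold SJ.up at h1 h2
    split_ifs at h1 h2
    omega

theorem recon (k : ℕ) (v v' : List ℕ) (h1 : v.map (min · k) = v'.map (min · k))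
    (h2 : v.filterMap (up k) = v'.filterMap (up k)) : v = v' := by
  induction v generalizing v' with
  | nil =>
    cases v' with
    | nil => rfl
    | cons a v' => simp at h1
  | cons a v ih =>
    cases v' with
    | nil => simp at h1
    | cons b v' =>
      simp only [List.map_cons, List.cons.injEq] at h1
      by_cases ha : k ≤ a
      · have hb : k ≤ b := by
          have := h1.1
          omega
        rw [List.filterMap_cons_some (by unfold up; rw [if_pos ha]),
          List.filterMap_cons_some (by unfold up; rw [if_pos hb]), List.cons.injEq] at h2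
        rw [h2.1, ih v' h1.2 h2.2]
      · have hb : ¬ k ≤ b := by
          have := h1.1
          omega
        rw [List.filterMap_cons_none (by unfold up; rw [if_neg ha]),
          List.filterMap_cons_none (by unfold up; rw [if_neg hb])] at h2
        have : a = b := by
          have := h1.1
          omega
        rw [this, ih v' h1.2 h2]

/-- the good words of length at most `L` in which each of the `n` letters `k, …, k + n - 1` occurs
exactly once and the other letters are smaller than `k` -/
def GG (d k n L : ℕ) : Set (List ℕ) :=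
  {v | v.length ≤ L ∧ (v.filterMap (up k)).Nodup ∧ (v.filterMap (up k)).toFinset = Ico k (k + n) ∧
    GoodJ d v}

/-- the code of a word -/
def code (k L : ℕ) (v : List ℕ) : (Fin L → Option (Fin (k + 1))) × List ℕ :=
  (fun i => (v[i.val]?).map fun z => ⟨min z k, by omega⟩, v.filterMap (up k))

theorem code_injOn (d k n L : ℕ) : Set.InjOn (code k L) (GG d k n L) := by
  rintro v ⟨hv, -⟩ v' ⟨hv', -⟩ h
  rw [code, code, Prod.mk.injEq] at h
  apply recon k v v' _ h.2
  apply List.ext_getElem?
  intro i
  rw [List.getElem?_map, List.getElem?_map]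
  by_cases hi : i < L
  · have h1 := congrFun h.1 ⟨i, hi⟩
    simp only at h1
    have h2 := congrArg (Option.map Fin.val) h1
    rw [Option.map_map, Option.map_map] at h2
    exact h2
  · rw [List.getElem?_eq_none (by omega), List.getElem?_eq_none (by omega)]

theorem code_maps (d k n L : ℕ) : ∀ v ∈ GG d k n L,
    code k L v ∈ (Set.univ : Set (Fin L → Option (Fin (k + 1)))) ×ˢ (S d (Ico k (k + n))) := by
  rintro v ⟨h1, h2, h3, h4⟩
  exact ⟨trivial, h2, h3, h4.up⟩

theorem GG_finite (d k n L : ℕ) : (GG d k n L).Finite := by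
  apply Set.Finite.of_injOn (code_maps d k n L) (code_injOn d k n L)
  exact Set.finite_univ.prod (S_finite _ _)

theorem GG_card (d k n L : ℕ) :
    (GG d k n L).ncard ≤ (k + 2) ^ L * (S d (Ico k (k + n))).ncard := by
  have h1 := Set.ncard_le_ncard_of_injOn (code k L) (code_maps d k n L) (code_injOn d k n L)
    (Set.finite_univ.prod (S_finite _ _))
  refine h1.trans (le_of_eq ?_)
  rw [Set.ncard_prod, Set.ncard_univ, Nat.card_eq_fintype_card, Fintype.card_fun]
  simp

theorem numeric (d k : ℕ) : ∃ n : ℕ, 0 < n ∧
    ((k + 1) ^ (k + 1)) ^ n * ((k + 2) ^ (n * (k + 2)) * (S d (Ico k (k + n))).ncard) <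
      n.factorial := by
  set M : ℕ := (k + 1) ^ (k + 1) * (k + 2) ^ (k + 2) with hM
  have hM0 : 0 < M := by positivity
  obtain ⟨K, hK, hb⟩ := S_bound (β := ℕ) d (1 / (2 * M)) (by positivity)
  obtain ⟨n, hn⟩ := pow_unbounded_of_one_lt K (one_lt_two (α := ℝ))
  refine ⟨n + 1, by omega, ?_⟩
  have h1 := hb (Ico k (k + (n + 1)))
  have hc : (Ico k (k + (n + 1))).card = n + 1 := by simp
  rw [hc] at h1
  have h2 : ((((k + 1) ^ (k + 1)) ^ (n + 1) * ((k + 2) ^ ((n + 1) * (k + 2)) *
      (S d (Ico k (k + (n + 1)))).ncard) : ℕ) : ℝ) < ((n + 1).factorial : ℝ) := by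
    have e1 : (((k + 1) ^ (k + 1)) ^ (n + 1) * ((k + 2) ^ ((n + 1) * (k + 2)) *
        (S d (Ico k (k + (n + 1)))).ncard) : ℕ) =
        M ^ (n + 1) * (S d (Ico k (k + (n + 1)))).ncard := by
      rw [hM, mul_pow, ← pow_mul (k + 2), mul_comm (k + 2) (n + 1), mul_assoc]
    rw [e1]
    push_cast
    calc (M : ℝ) ^ (n + 1) * ((S d (Ico k (k + (n + 1)))).ncard : ℝ)
        ≤ (M : ℝ) ^ (n + 1) * (K * (1 / (2 * M)) ^ (n + 1) * ((n + 1).factorial : ℝ)) := by
          gcongr
      _ = K / 2 ^ (n + 1) * ((n + 1).factorial : ℝ) := by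
          rw [div_pow, one_pow, mul_pow]
          field_simp
      _ < 1 * ((n + 1).factorial : ℝ) := by
          apply mul_lt_mul_of_pos_right _ (by positivity)
          rw [div_lt_one (by positivity)]
          calc K < 2 ^ n := hn
            _ ≤ 2 ^ (n + 1) := by
              apply pow_le_pow_right₀ (by norm_num) (by omega)
      _ = _ := one_mul _
  exact_mod_cast h2

end count

section identity

variable {F : Type u} [Field F] {C : Type v} [Ring C] [Algebra F C]

theorem multilin_zero' {V W : Type*} [AddCommGroup V] [Module F V]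
    [AddCommGroup W] [Module F W] {m : ℕ} (g : MultilinearMap F (fun _ : Fin m => V) W)
    (E : Set V) (h : ∀ X : Fin m → V, (∀ j, X j ∈ E) → g X = 0)
    (X : Fin m → V) (hX : ∀ j, X j ∈ Submodule.span F E) : g X = 0 := by
  classical
  have key : ∀ s : Finset (Fin m), ∀ X : Fin m → V, (∀ j, X j ∈ Submodule.span F E) →
      (∀ j, j ∉ s → X j ∈ E) → g X = 0 := by
    intro s
    induction s using Finset.induction_on with
    | empty => intro X _ hX; exact h X (fun j => hX j (by simp))
    | insert i s his ih =>
      intro X hXs hX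
      have h1 : ∀ y ∈ Submodule.span F E, g (Function.update X i y) = 0 := by
        intro y hy
        induction hy using Submodule.span_induction with
        | mem y hy =>
          apply ih
          · intro j
            by_cases hji : j = i
            · subst hji
              rw [Function.update_self]
              exact Submodule.subset_span hy
            · rw [Function.update_of_ne hji]
              exact hXs j
          · intro j hj
            by_cases hji : j = i
            · subst hji; rwa [Function.update_self]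
            · rw [Function.update_of_ne hji]
              exact hX j (by simp [hji, hj])
        | zero => exact g.map_update_zero X i
        | add y z _ _ h1 h2 => rw [g.map_update_add, h1, h2, add_zero]
        | smul c y _ h1 => rw [g.map_update_smul, h1, smul_zero]
      have := h1 (X i) (hXs i)
      rwa [Function.update_eq_self] at this
  exact key univ X hX (fun j hj => absurd (mem_univ j) hj)

/-- the word of generators -/
def gw {k : ℕ} (φ : Fin (k + 1) → Option (Fin k)) : List ℕ :=
  (List.ofFn φ).filterMap (fun o => o.map Fin.val)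

theorem gw_length {k : ℕ} (φ : Fin (k + 1) → Option (Fin k)) : (gw φ).length ≤ k + 1 := by
  unfold gw
  refine (List.length_filterMap_le _ _).trans ?_
  simp

theorem gw_lt {k : ℕ} (φ : Fin (k + 1) → Option (Fin k)) : ∀ z ∈ gw φ, z < k := by
  intro z hz
  unfold gw at hz
  rw [List.mem_filterMap] at hz
  obtain ⟨o, -, ho⟩ := hz
  rw [Option.map_eq_some_iff] at ho
  obtain ⟨i, -, rfl⟩ := ho
  exact i.2

theorem gw_prod {k : ℕ} (a : Fin k → C) (x : ℕ → C) (hx : ∀ i : Fin k, x i.val = a i)
    (φ : Fin (k + 1) → Option (Fin k)) :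
    ((gw φ).map x).prod = (List.ofFn fun i => (φ i).elim 1 a).prod := by
  have h : ∀ l : List (Option (Fin k)),
      ((l.filterMap (fun o => o.map Fin.val)).map x).prod = (l.map fun o => o.elim 1 a).prod := by
    intro l
    induction l with
    | nil => rfl
    | cons o l ih =>
      cases o with
      | none =>
        rw [List.filterMap_cons_none (by rfl), ih]
        simp
      | some i =>
        rw [List.filterMap_cons_some (b := i.val) (by rfl), List.map_cons, List.prod_cons, ih, hx]
        simp
  unfold gw
  rw [h, List.map_ofFn]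
  rfl

/-- the word of a permutation -/
def WW {k n : ℕ} (π : Equiv.Perm (Fin n)) (φ : Fin n → Fin (k + 1) → Option (Fin k)) : List ℕ :=
  (List.ofFn fun i => (k + (π i).val) :: gw (φ (π i))).flatten

theorem WW_length {k n : ℕ} (π : Equiv.Perm (Fin n)) (φ : Fin n → Fin (k + 1) → Option (Fin k)) :
    (WW π φ).length ≤ n * (k + 2) := by
  unfold WW
  rw [List.length_flatten, List.map_ofFn]
  have : ∀ l : List ℕ, (∀ x ∈ l, x ≤ k + 2) → l.sum ≤ l.length * (k + 2) := by
    intro l hl
    have := List.sum_le_card_nsmul l (k + 2) hl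
    simpa using this
  refine (this _ ?_).trans (by simp)
  intro x hx
  rw [List.mem_ofFn] at hx
  obtain ⟨i, rfl⟩ := hx
  have := gw_length (φ (π i))
  simp only [Function.comp_apply, List.length_cons]
  omega

theorem WW_up {k n : ℕ} (π : Equiv.Perm (Fin n)) (φ : Fin n → Fin (k + 1) → Option (Fin k)) :
    (WW π φ).filterMap (up k) = List.ofFn fun i => k + (π i).val := by
  have h : ∀ l : List (ℕ × List ℕ), (∀ p ∈ l, k ≤ p.1 ∧ ∀ z ∈ p.2, z < k) →
      ((l.map fun p => p.1 :: p.2).flatten).filterMap (up k) = l.map Prod.fst := by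
    intro l hl
    induction l with
    | nil => rfl
    | cons p l ih =>
      have h1 := hl p (by simp)
      rw [List.map_cons, List.flatten_cons, List.filterMap_append, ih (fun q hq => hl q (by simp [hq])),
        List.filterMap_cons_some (b := p.1) (by unfold up; rw [if_pos h1.1]),
        List.filterMap_eq_nil_iff.2, List.map_cons]
      · rfl
      · intro z hz
        unfold up
        rw [if_neg]
        have := h1.2 z hz
        omega
  have h1 := h (List.ofFn fun i => (k + (π i).val, gw (φ (π i)))) (by
    intro p hp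
    rw [List.mem_ofFn] at hp
    obtain ⟨i, rfl⟩ := hp
    exact ⟨by simp, gw_lt _⟩)
  rw [List.map_ofFn, List.map_ofFn] at h1
  exact h1

/-- The envelope of a finitely generated special Jordan PI algebra satisfies a multilinear
identity. -/
theorem envelope_identity (J : Submodule F C)
    (hJ : ∀ x ∈ J, ∀ y ∈ J, x * y + y * x ∈ J) {k : ℕ} (a : Fin k → C) (ha : ∀ i, a i ∈ J)
    {d : ℕ} (c : Equiv.Perm (Fin d) → F) (hc1 : c 1 = 1)
    (hc : ∀ a : Fin d → C, (∀ i, a i ∈ J) → ∑ τ, c τ • (List.ofFn fun k => a (τ k)).prod = 0) :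
    ∃ (n : ℕ) (s : Equiv.Perm (Fin n) → F), 0 < n ∧ s ≠ 0 ∧ ∀ X : Fin n → C,
      (∀ i, X i ∈ J * (1 ⊔ Submodule.span F (Set.range a)) ^ (k + 1)) →
      ∑ π, s π • (List.ofFn fun i => X (π i)).prod = 0 := by
  classical
  obtain ⟨n, hn, hlt⟩ := numeric d k
  set L := n * (k + 2) with hL
  set R : Submodule F (MonoidAlgebra F (FreeMonoid ℕ)) := Sp F (GG d k n L) with hR
  have hRfin : Module.Finite F R := by
    rw [hR, Sp]
    exact Module.Finite.span_of_finite F ((GG_finite d k n L).image _)
  have hRcard : Module.finrank F R ≤ (GG d k n L).ncard := by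
    have h1 : ((m F '' (GG d k n L)) : Set (MonoidAlgebra F (FreeMonoid ℕ))).Finite :=
      (GG_finite d k n L).image _
    have h2 := finrank_span_finset_le_card (R := F) h1.toFinset
    rw [h1.coe_toFinset] at h2
    refine h2.trans ?_
    rw [← Set.ncard_eq_toFinset_card _ h1]
    exact Set.ncard_image_le (GG_finite d k n L)
  have hred := fun w : List ℕ => reduceJ J hJ c hc1 hc w
  choose f hf1 hf2 using hred
  have hfR : ∀ (π : Equiv.Perm (Fin n)) (φ : Fin n → Fin (k + 1) → Option (Fin k)),
      f (WW π φ) ∈ R := by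
    intro π φ
    refine Sp_mono ?_ (hf1 (WW π φ))
    rintro v ⟨h1, h2⟩
    have h3 : (v.filterMap (up k)).Perm (List.ofFn fun i => k + (π i).val) := by
      rw [← WW_up π φ]
      exact h1.filterMap _
    refine ⟨?_, ?_, ?_, h2⟩
    · rw [h1.length_eq]
      exact WW_length π φ
    · rw [h3.nodup_iff, List.nodup_ofFn]
      intro i j hij
      apply π.injective
      apply Fin.ext
      simpa using hij
    · rw [List.toFinset_eq_of_perm _ _ h3]
      ext z
      simp only [List.mem_toFinset, List.mem_ofFn, Finset.mem_Ico]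
      constructor
      · rintro ⟨i, rfl⟩
        have := (π i).2
        omega
      · rintro ⟨h4, h5⟩
        refine ⟨π.symm ⟨z - k, by omega⟩, ?_⟩
        simp
        omega
  let Φ : (Equiv.Perm (Fin n) → F) →ₗ[F] ((Fin n → Fin (k + 1) → Option (Fin k)) → R) :=
    { toFun := fun s φ => ∑ π, s π • (⟨f (WW π φ), hfR π φ⟩ : R)
      map_add' := by
        intro s s'
        funext φ
        simp only [Pi.add_apply, add_smul, Finset.sum_add_distrib]
      map_smul' := by
        intro t s
        funext φ
        simp only [Pi.smul_apply, smul_eq_mul, RingHom.id_apply, Finset.smul_sum, mul_smul] }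
  have hrank : Module.finrank F ((Fin n → Fin (k + 1) → Option (Fin k)) → R) <
      Module.finrank F (Equiv.Perm (Fin n) → F) := by
    rw [Module.finrank_pi_fintype, Module.finrank_fintype_fun_eq_card,
      Fintype.card_perm, Fintype.card_fin, Finset.sum_const, Finset.card_univ, smul_eq_mul]
    refine lt_of_le_of_lt ?_ hlt
    have h1 : Fintype.card (Fin n → Fin (k + 1) → Option (Fin k)) = ((k + 1) ^ (k + 1)) ^ n := by
      simp
    rw [h1]
    exact Nat.mul_le_mul_left _ (hRcard.trans (GG_card d k n L))
  have hker := LinearMap.ker_ne_bot_of_finrank_lt (f := Φ) hrank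
  obtain ⟨s, hs1, hs0⟩ := Submodule.exists_mem_ne_zero_of_ne_bot hker
  have hs : ∀ φ : Fin n → Fin (k + 1) → Option (Fin k), ∑ π, s π • f (WW π φ) = 0 := by
    intro φ
    have h1 := congrFun (LinearMap.mem_ker.1 hs1) φ
    have h2 := congrArg (Submodule.subtype R) h1
    simpa [Φ] using h2
  refine ⟨n, s, hn, hs0, ?_⟩
  let g : MultilinearMap F (fun _ : Fin n => C) C :=
    ∑ π : Equiv.Perm (Fin n), s π •
      ((MultilinearMap.mkPiAlgebraFin F n C).domDomCongr π)
  have hg : ∀ X, g X = ∑ π, s π • (List.ofFn fun k => X (π k)).prod := by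
    intro X
    simp only [g, _root_.sum_apply, _root_.smul_apply,
      MultilinearMap.domDomCongr_apply, MultilinearMap.mkPiAlgebraFin_apply]
  intro X hX
  rw [← hg]
  set e : Option (Fin k) → C := fun o => o.elim 1 a with he
  refine multilin_zero' g {y | ∃ x ∈ J, ∃ φ : Fin (k + 1) → Option (Fin k),
    y = x * (List.ofFn fun i => e (φ i)).prod} ?_ X ?_
  · intro Y hY
    choose x hx φ hφ using hY
    rw [hg]
    -- the assignment of the letters
    set A : ℕ → C := fun z => if h : z < k then a ⟨z, h⟩ else
      if h' : z - k < n then x ⟨z - k, h'⟩ else 0 with hA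
    have hAJ : ∀ z, A z ∈ J := by
      intro z
      simp only [hA]
      split_ifs
      · exact ha _
      · exact hx _
      · exact J.zero_mem
    have hAa : ∀ i : Fin k, A i.val = a i := by
      intro i
      simp [hA]
    have hAx : ∀ i : Fin n, A (k + i.val) = x i := by
      intro i
      simp [hA]
    have h1 : ∀ π : Equiv.Perm (Fin n), (List.ofFn fun i => Y (π i)).prod =
        ev A (f (WW π φ)) := by
      intro π
      rw [hf2 _ A hAJ, WW, List.map_flatten, List.prod_flatten, List.map_map, List.map_ofFn]
      congr 2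
      funext i
      simp only [Function.comp_apply, List.map_cons, List.prod_cons]
      rw [gw_prod a A hAa, hAx, hφ]
    simp only [h1]
    rw [← map_zero (ev (F := F) A), ← hs φ, map_sum]
    simp only [map_smul]
  · intro j
    have h1 := hX j
    have hV : (1 ⊔ Submodule.span F (Set.range a)) = Submodule.span F (Set.range e) := by
      apply le_antisymm
      · refine sup_le ?_ (Submodule.span_mono ?_)
        · rw [Submodule.one_le]
          exact Submodule.subset_span ⟨none, rfl⟩
        · rintro _ ⟨i, rfl⟩
          exact ⟨some i, rfl⟩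
      · rw [Submodule.span_le]
        rintro _ ⟨o, rfl⟩
        cases o with
        | none => exact le_sup_left (a := (1 : Submodule F C)) (Submodule.one_le.1 le_rfl)
        | some i => exact le_sup_right (a := (1 : Submodule F C)) (Submodule.subset_span ⟨i, rfl⟩)
    rw [hV, Submodule.span_pow, ← Submodule.span_eq J, Submodule.span_mul_span] at h1
    refine Submodule.span_mono ?_ h1
    rintro _ ⟨x, hx, y, hy, rfl⟩
    rw [Set.mem_pow] at hy
    obtain ⟨q, rfl⟩ := hy
    choose φ hφ using fun i => (q i).2
    refine ⟨x, by simpa using hx, φ, ?_⟩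
    simp only [hφ]

end identity

end Pool.Agent.U540.SJ
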