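import Pool.Agent.H67.PI.Emb

/-! Reduction of words modulo a multilinear identity of a special Jordan algebra: a word with `d`
consecutive blocks, each of which starts with its largest letter and whose first letters decrease,
is a combination of smaller rearrangements. -/

namespace Pool.Agent.U540.SJ

universe u v

open Submodule Pointwise

section words

variable {α : Type} [LinearOrder α]

/-- there are no `d` consecutive blocks, each starting with its strictly largest letter, with
decreasing first letters -/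
def GoodJ (d : ℕ) (w : List α) : Prop :=
  ¬ ∃ (u0 u1 : List α) (B : Fin d → α × List α),
    w = u0 ++ (List.ofFn fun k => (B k).1 :: (B k).2).flatten ++ u1 ∧
    (StrictAnti fun k => (B k).1) ∧ ∀ k, ∀ y ∈ (B k).2, y < (B k).1

theorem lt_append_left (u x y : List α) (h : x < y) : u ++ x < u ++ y := by
  induction u with
  | nil => exact h
  | cons a u ih => exact List.Lex.cons ih

theorem lt_append_right {v1 w1 : List α} (hl : v1.length = w1.length) (h : v1 < w1)
    (v2 w2 : List α) : v1 ++ v2 < w1 ++ w2 := by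
  induction v1 generalizing w1 with
  | nil =>
    cases w1 with
    | nil => exact absurd h (lt_irrefl _)
    | cons b w1 => simp at hl
  | cons a v1 ih =>
    cases w1 with
    | nil => simp at hl
    | cons b w1 =>
      rcases h with _ | h1 | h1
      · exact List.Lex.rel h1
      · exact List.Lex.cons (ih (by simpa using hl) h1)

end words

section alg

variable {α : Type} (F : Type u) [Field F]

/-- the word `w` as an element of the free algebra -/
noncomputable def m (w : List α) : MonoidAlgebra F (FreeMonoid α) :=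
  MonoidAlgebra.of F (FreeMonoid α) (FreeMonoid.ofList w)

/-- the span of a set of words -/
noncomputable def Sp (D : Set (List α)) : Submodule F (MonoidAlgebra F (FreeMonoid α)) :=
  Submodule.span F (m F '' D)

variable {F}

theorem m_append (v w : List α) : m F (v ++ w) = m F v * m F w := by
  rw [m, m, m, ← map_mul]
  rfl

theorem m_nil : m F ([] : List α) = 1 := by
  rw [m]
  exact map_one _

theorem Sp_mono {D D' : Set (List α)} (h : D ⊆ D') : Sp F D ≤ Sp F D' :=
  Submodule.span_mono (Set.image_mono h)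

theorem m_mem {D : Set (List α)} {w : List α} (h : w ∈ D) : m F w ∈ Sp F D :=
  Submodule.subset_span ⟨w, h, rfl⟩

theorem Sp_mul {D1 D2 D : Set (List α)} (h : ∀ v1 ∈ D1, ∀ v2 ∈ D2, v1 ++ v2 ∈ D)
    {f g : MonoidAlgebra F (FreeMonoid α)} (hf : f ∈ Sp F D1) (hg : g ∈ Sp F D2) :
    f * g ∈ Sp F D := by
  have h1 := Submodule.mul_mem_mul hf hg
  rw [Sp, Sp, Submodule.span_mul_span] at h1
  refine Submodule.span_mono ?_ h1
  rintro _ ⟨_, ⟨v1, hv1, rfl⟩, _, ⟨v2, hv2, rfl⟩, rfl⟩
  exact ⟨v1 ++ v2, h v1 hv1 v2 hv2, m_append v1 v2⟩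

/-- evaluation -/
noncomputable def ev {C : Type v} [Ring C] [Algebra F C] (a : α → C) :
    MonoidAlgebra F (FreeMonoid α) →ₐ[F] C :=
  MonoidAlgebra.lift F C (FreeMonoid α) (FreeMonoid.lift a)

theorem ev_m {C : Type v} [Ring C] [Algebra F C] (a : α → C) (w : List α) :
    ev (F := F) a (m F w) = (w.map a).prod := by
  rw [ev, m, MonoidAlgebra.lift_of]
  rw [FreeMonoid.lift_apply]
  rfl

end alg

section red

variable {α : Type} [LinearOrder α] {F : Type u} [Field F] {C : Type v} [Ring C] [Algebra F C]

/-- smaller rearrangements -/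
def Lt (w : List α) : Set (List α) := {v | v.Perm w ∧ v < w}

/-- rearrangements which are not larger -/
def Le (w : List α) : Set (List α) := {v | v.Perm w ∧ (v < w ∨ v = w)}

theorem block (J : Submodule F C) (hJ : ∀ x ∈ J, ∀ y ∈ J, x * y + y * x ∈ J) (x : α)
    (t : List α) (ht : ∀ y ∈ t, y < x) :
    ∃ f : MonoidAlgebra F (FreeMonoid α),
      f - m F (x :: t) ∈ Sp F {v | v.Perm (x :: t) ∧ ∃ y v', v = y :: v' ∧ y < x} ∧
      ∀ a : α → C, (∀ i, a i ∈ J) → ev a f ∈ J := by
  induction t using List.reverseRecOn with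
  | nil =>
    refine ⟨m F [x], by simp, fun a ha => ?_⟩
    rw [ev_m]
    simpa using ha x
  | append_singleton t y ih =>
    obtain ⟨f, hf1, hf2⟩ := ih (fun z hz => ht z (by simp [hz]))
    have hy : y < x := ht y (by simp)
    refine ⟨f * m F [y] + m F [y] * f, ?_, fun a ha => ?_⟩
    · have e : f * m F [y] + m F [y] * f - m F (x :: (t ++ [y])) =
          (f - m F (x :: t)) * m F [y] + m F [y] * f := by
        have : m F (x :: (t ++ [y])) = m F (x :: t) * m F [y] := by
          rw [← m_append]; rfl
        rw [this, sub_mul]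
        abel
      rw [e]
      apply Submodule.add_mem
      · apply Sp_mul (D1 := {v | v.Perm (x :: t) ∧ ∃ y v', v = y :: v' ∧ y < x})
          (D2 := {[y]}) _ hf1 (m_mem rfl)
        rintro v1 ⟨h1, z, v', rfl, hz⟩ v2 rfl
        refine ⟨?_, z, v' ++ [y], by simp, hz⟩
        exact h1.append_right [y]
      · have hf3 : f ∈ Sp F {v | v.Perm (x :: t)} := by
          have : f = (f - m F (x :: t)) + m F (x :: t) := by abel
          rw [this]
          apply Submodule.add_mem
          · exact Sp_mono (fun v hv => hv.1) hf1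
          · exact m_mem (List.Perm.refl _)
        apply Sp_mul (D1 := {[y]}) (D2 := {v | v.Perm (x :: t)}) _ (m_mem rfl) hf3
        rintro v1 rfl v2 h2
        refine ⟨?_, y, v2, rfl, hy⟩
        have h3 : ([y] ++ v2).Perm ([y] ++ (x :: t)) := List.Perm.append_left [y] h2
        refine h3.trans ?_
        exact List.perm_append_comm
    · rw [map_add, map_mul, map_mul, ev_m]
      simpa using hJ _ (hf2 a ha) _ (ha y)

theorem prod_lead (L : List (MonoidAlgebra F (FreeMonoid α) × List α))
    (hL : ∀ p ∈ L, p.1 - m F p.2 ∈ Sp F (Lt p.2)) :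
    (L.map Prod.fst).prod - m F (L.map Prod.snd).flatten ∈
      Sp F (Lt (L.map Prod.snd).flatten) := by
  induction L with
  | nil => simp [m_nil]
  | cons p L ih =>
    have h1 := ih (fun q hq => hL q (by simp [hq]))
    have h2 := hL p (by simp)
    set P := (L.map Prod.fst).prod
    set W := (L.map Prod.snd).flatten
    have hP : P ∈ Sp F {v | v.Perm W} := by
      have : P = (P - m F W) + m F W := by abel
      rw [this]
      exact Submodule.add_mem _ (Sp_mono (fun v hv => hv.1) h1) (m_mem (List.Perm.refl _))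
    rw [List.map_cons, List.map_cons, List.prod_cons, List.flatten_cons, m_append]
    have e : p.1 * P - m F p.2 * m F W = (p.1 - m F p.2) * P + m F p.2 * (P - m F W) := by
      rw [sub_mul, mul_sub]
      abel
    rw [e]
    apply Submodule.add_mem
    · apply Sp_mul _ h2 hP
      rintro v1 ⟨h3, h4⟩ v2 h5
      exact ⟨h3.append h5, lt_append_right h3.length_eq h4 _ _⟩
    · apply Sp_mul (D1 := {p.2}) (D2 := Lt W) _ (m_mem rfl) h1
      rintro v1 rfl v2 ⟨h5, h6⟩
      exact ⟨h5.append_left _, lt_append_left _ _ _ h6⟩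

theorem split_flatten {β : Type*} {d : ℕ} (k : Fin d) (G : Fin d → List β) :
    (List.ofFn G).flatten = ((List.ofFn G).take k.val).flatten ++
      (G k ++ ((List.ofFn G).drop (k.val + 1)).flatten) := by
  conv_lhs => rw [← List.take_append_drop k.val (List.ofFn G)]
  rw [List.flatten_append]
  congr 1
  have hk' : k.val < (List.ofFn G).length := by simp
  rw [List.drop_eq_getElem_cons hk']
  simp

theorem split_prod {M : Type*} [Monoid M] {d : ℕ} (k : Fin d) (G : Fin d → M) :
    (List.ofFn G).prod = ((List.ofFn G).take k.val).prod *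
      (G k * ((List.ofFn G).drop (k.val + 1)).prod) := by
  conv_lhs => rw [← List.take_append_drop k.val (List.ofFn G)]
  rw [List.prod_append]
  congr 1
  have hk' : k.val < (List.ofFn G).length := by simp
  rw [List.drop_eq_getElem_cons hk']
  simp

omit [LinearOrder α] in
theorem list_perm_mem (L : List (MonoidAlgebra F (FreeMonoid α) × List α))
    (hL : ∀ p ∈ L, p.1 ∈ Sp F {v | v.Perm p.2}) :
    (L.map Prod.fst).prod ∈ Sp F {v | v.Perm (L.map Prod.snd).flatten} := by
  induction L with
  | nil =>
    simp only [List.map_nil, List.prod_nil, List.flatten_nil]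
    rw [← m_nil]
    exact m_mem (List.Perm.refl _)
  | cons p L ih =>
    have h1 := ih (fun q hq => hL q (by simp [hq]))
    have h2 := hL p (by simp)
    rw [List.map_cons, List.map_cons, List.prod_cons, List.flatten_cons]
    exact Sp_mul (fun v1 h3 v2 h4 => h3.append h4) h2 h1

/-- the terms of the identity with a nontrivial permutation of the blocks -/
theorem prod_perm {d : ℕ} (f : Fin d → MonoidAlgebra F (FreeMonoid α))
    (B : Fin d → α × List α) (hB : StrictAnti fun k => (B k).1)
    (hf : ∀ k, f k - m F ((B k).1 :: (B k).2) ∈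
      Sp F {v | v.Perm ((B k).1 :: (B k).2) ∧ ∃ y v', v = y :: v' ∧ y < (B k).1})
    (τ : Equiv.Perm (Fin d)) (hτ : τ ≠ 1) :
    (List.ofFn fun k => f (τ k)).prod ∈
      Sp F (Lt (List.ofFn fun k => (B k).1 :: (B k).2).flatten) := by
  classical
  set G : Fin d → List α := fun k => (B k).1 :: (B k).2 with hG
  have hfLt : ∀ k, f k - m F (G k) ∈ Sp F (Lt (G k)) := by
    intro k
    refine Sp_mono ?_ (hf k)
    rintro v ⟨h1, y, v', rfl, hy⟩
    exact ⟨h1, List.Lex.rel hy⟩
  have hfP : ∀ k, f k ∈ Sp F {v | v.Perm (G k)} := by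
    intro k
    have : f k = (f k - m F (G k)) + m F (G k) := by abel
    rw [this]
    exact Submodule.add_mem _ (Sp_mono (fun v hv => hv.1) (hf k)) (m_mem (List.Perm.refl _))
  -- first index moved
  obtain ⟨k, hk, hmin⟩ : ∃ k, τ k ≠ k ∧ ∀ i < k, τ i = i := by
    have hne : ∃ k, τ k ≠ k := by
      by_contra h
      push Not at h
      exact hτ (Equiv.ext h)
    have hS : (Finset.univ.filter fun k => τ k ≠ k).Nonempty := by
      obtain ⟨k, hk⟩ := hne
      exact ⟨k, by simp [hk]⟩
    refine ⟨(Finset.univ.filter fun k => τ k ≠ k).min' hS, ?_, ?_⟩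
    · have := Finset.min'_mem _ hS
      simpa using this
    · intro i hi
      by_contra hc
      have : (Finset.univ.filter fun k => τ k ≠ k).min' hS ≤ i :=
        Finset.min'_le _ _ (by simp [hc])
      exact absurd hi (not_lt.2 this)
  have hgt : k < τ k := by
    rcases lt_trichotomy (τ k) k with h | h | h
    · have := hmin _ h
      exact absurd (τ.injective this) h.ne
    · exact absurd h hk
    · exact h
  -- the first part
  have htake : (List.ofFn fun k => f (τ k)).take k.val = (List.ofFn f).take k.val := by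
    apply List.ext_getElem
    · simp
    · intro i h1 h2
      simp only [List.length_take, List.length_ofFn, lt_min_iff] at h1
      simp only [List.getElem_take, List.getElem_ofFn]
      have := hmin ⟨i, h1.2⟩ (Fin.lt_def.2 h1.1)
      rw [this]
  set W1 := ((List.ofFn G).take k.val).flatten with hW1
  have hP1 : ((List.ofFn f).take k.val).prod ∈ Sp F (Le W1) := by
    have h1 := prod_lead ((List.ofFn fun k => (f k, G k)).take k.val) (by
      intro p hp
      have hp' := List.mem_of_mem_take hp
      rw [List.mem_ofFn] at hp'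
      obtain ⟨i, rfl⟩ := hp'
      exact hfLt i)
    rw [List.map_take, List.map_take, List.map_ofFn, List.map_ofFn] at h1
    have e1 : (Prod.fst ∘ fun k => (f k, G k)) = f := rfl
    have e2 : (Prod.snd ∘ fun k => (f k, G k)) = G := rfl
    rw [e1, e2] at h1
    have : ((List.ofFn f).take k.val).prod = (((List.ofFn f).take k.val).prod - m F W1) + m F W1 := by
      abel
    rw [this]
    apply Submodule.add_mem
    · refine Sp_mono ?_ h1
      rintro v ⟨h3, h4⟩
      exact ⟨h3, Or.inl h4⟩
    · exact m_mem (show W1 ∈ Le W1 from ⟨List.Perm.refl _, Or.inr rfl⟩)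
  -- the middle part
  have hP2 : f (τ k) ∈ Sp F {v | v.Perm (G (τ k)) ∧ ∃ y v', v = y :: v' ∧ y < (B k).1} := by
    have : f (τ k) = (f (τ k) - m F (G (τ k))) + m F (G (τ k)) := by abel
    rw [this]
    apply Submodule.add_mem
    · refine Sp_mono ?_ (hf (τ k))
      rintro v ⟨h1, y, v', h2, hy⟩
      exact ⟨h1, y, v', h2, hy.trans (hB hgt)⟩
    · exact m_mem (show G (τ k) ∈ {v | v.Perm (G (τ k)) ∧ ∃ y v', v = y :: v' ∧ y < (B k).1} from
        ⟨List.Perm.refl _, (B (τ k)).1, (B (τ k)).2, rfl, hB hgt⟩)
  -- the last part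
  set W3 := ((List.ofFn fun k => G (τ k)).drop (k.val + 1)).flatten with hW3
  have hP3 : ((List.ofFn fun k => f (τ k)).drop (k.val + 1)).prod ∈ Sp F {v | v.Perm W3} := by
    have h1 := list_perm_mem ((List.ofFn fun k => (f (τ k), G (τ k))).drop (k.val + 1)) (by
      intro p hp
      have hp' := List.mem_of_mem_drop hp
      rw [List.mem_ofFn] at hp'
      obtain ⟨i, rfl⟩ := hp'
      exact hfP (τ i))
    rw [List.map_drop, List.map_drop, List.map_ofFn, List.map_ofFn] at h1
    exact h1
  rw [split_prod k (fun k => f (τ k)), htake]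
  apply Sp_mul _ hP1 (Sp_mul (D := {v | ∃ y v', v = y :: v' ∧ y < (B k).1 ∧
    v.Perm (G (τ k) ++ W3)}) _ hP2 hP3)
  · rintro v1 ⟨h1, h2⟩ v2 ⟨y, v', rfl, hy, h3⟩
    have hsplit := split_flatten k G
    rw [← hW1] at hsplit
    constructor
    · have h4 : (v1 ++ y :: v').Perm (W1 ++ (G (τ k) ++ W3)) := h1.append h3
      refine h4.trans ?_
      have h5 : (List.ofFn fun k => G (τ k)).flatten = W1 ++ (G (τ k) ++ W3) := by
        rw [split_flatten k (fun k => G (τ k))]
        congr 2
        apply List.ext_getElem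
        · simp
        · intro i h1 h2
          simp only [List.length_take, List.length_ofFn, lt_min_iff] at h1
          simp only [List.getElem_take, List.getElem_ofFn]
          have := hmin ⟨i, h1.2⟩ (Fin.lt_def.2 h1.1)
          rw [this]
      rw [← h5]
      apply List.Perm.flatten
      exact Equiv.Perm.ofFn_comp_perm τ G
    · rw [hsplit]
      have h6 : y :: v' < G k ++ ((List.ofFn G).drop (k.val + 1)).flatten := List.Lex.rel hy
      rcases h2 with h2 | rfl
      · exact lt_append_right h1.length_eq h2 _ _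
      · exact lt_append_left _ _ _ h6
  · rintro v1 ⟨h1, y, v', rfl, hy⟩ v2 h2
    exact ⟨y, v' ++ v2, by simp, hy, h1.append h2⟩

/-- A word which is not good is a combination of smaller words modulo the identities. -/
theorem step (J : Submodule F C) (hJ : ∀ x ∈ J, ∀ y ∈ J, x * y + y * x ∈ J) {d : ℕ}
    (c : Equiv.Perm (Fin d) → F) (hc1 : c 1 = 1)
    (hc : ∀ a : Fin d → C, (∀ i, a i ∈ J) → ∑ τ, c τ • (List.ofFn fun k => a (τ k)).prod = 0)
    (w : List α) (hw : ¬ GoodJ d w) :
    ∃ f : MonoidAlgebra F (FreeMonoid α), f - m F w ∈ Sp F (Lt w) ∧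
      ∀ a : α → C, (∀ i, a i ∈ J) → ev a f = 0 := by
  classical
  unfold GoodJ at hw
  rw [not_not] at hw
  obtain ⟨u0, u1, B, rfl, hB1, hB2⟩ := hw
  choose f hf1 hf2 using fun k => block J hJ (B k).1 (B k).2 (hB2 k)
  set G : Fin d → List α := fun k => (B k).1 :: (B k).2 with hG
  set W := (List.ofFn G).flatten with hW
  have hsand : ∀ g ∈ Sp F (Lt W), m F u0 * g * m F u1 ∈ Sp F (Lt (u0 ++ W ++ u1)) := by
    intro g hg
    apply Sp_mul (D1 := Lt (u0 ++ W)) (D2 := {u1}) _ _ (m_mem rfl)
    · rintro v1 ⟨h1, h2⟩ v2 rfl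
      exact ⟨h1.append_right _, lt_append_right h1.length_eq h2 _ _⟩
    · apply Sp_mul (D1 := {u0}) (D2 := Lt W) _ (m_mem rfl) hg
      rintro v1 rfl v2 ⟨h1, h2⟩
      exact ⟨h1.append_left _, lt_append_left _ _ _ h2⟩
  refine ⟨m F u0 * (∑ τ, c τ • (List.ofFn fun k => f (τ k)).prod) * m F u1, ?_, ?_⟩
  · have h1 : (List.ofFn f).prod - m F W ∈ Sp F (Lt W) := by
      have h1 := prod_lead (List.ofFn fun k => (f k, G k)) (by
        intro p hp
        rw [List.mem_ofFn] at hp
        obtain ⟨i, rfl⟩ := hp
        refine Sp_mono ?_ (hf1 i)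
        rintro v ⟨h1, y, v', rfl, hy⟩
        exact ⟨h1, List.Lex.rel hy⟩)
      rw [List.map_ofFn, List.map_ofFn] at h1
      exact h1
    have h2 : (∑ τ, c τ • (List.ofFn fun k => f (τ k)).prod) - m F W ∈ Sp F (Lt W) := by
      rw [← Finset.add_sum_erase _ _ (Finset.mem_univ (1 : Equiv.Perm (Fin d)))]
      have e : c 1 • (List.ofFn fun k => f ((1 : Equiv.Perm (Fin d)) k)).prod +
          ∑ τ ∈ Finset.univ.erase 1, c τ • (List.ofFn fun k => f (τ k)).prod - m F W =
          ((List.ofFn f).prod - m F W) +
          ∑ τ ∈ Finset.univ.erase 1, c τ • (List.ofFn fun k => f (τ k)).prod := by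
        rw [hc1, one_smul]
        simp only [Equiv.Perm.coe_one, id_eq]
        abel
      rw [e]
      apply Submodule.add_mem _ h1
      apply Submodule.sum_mem
      intro τ hτ
      apply Submodule.smul_mem
      exact prod_perm f B hB1 hf1 τ (Finset.ne_of_mem_erase hτ)
    have h3 := hsand _ h2
    rw [mul_sub, sub_mul, ← m_append, ← m_append] at h3
    exact h3
  · intro a ha
    rw [map_mul, map_mul, map_sum]
    have h1 : ∀ τ : Equiv.Perm (Fin d), ev a (c τ • (List.ofFn fun k => f (τ k)).prod) =
        c τ • (List.ofFn fun k => ev a (f (τ k))).prod := by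
      intro τ
      rw [map_smul, map_list_prod, List.map_ofFn]
      rfl
    rw [Finset.sum_congr rfl (fun τ _ => h1 τ), hc (fun k => ev a (f k)) (fun k => hf2 k a ha)]
    simp

/-- Every word is a combination of good rearrangements modulo the identities. -/
theorem reduceJ (J : Submodule F C) (hJ : ∀ x ∈ J, ∀ y ∈ J, x * y + y * x ∈ J) {d : ℕ}
    (c : Equiv.Perm (Fin d) → F) (hc1 : c 1 = 1)
    (hc : ∀ a : Fin d → C, (∀ i, a i ∈ J) → ∑ τ, c τ • (List.ofFn fun k => a (τ k)).prod = 0)
    (w : List α) :
    ∃ f ∈ Sp F {v : List α | v.Perm w ∧ GoodJ d v},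
      ∀ a : α → C, (∀ i, a i ∈ J) → ev a f = (w.map a).prod := by
  classical
  have hfin : {v : List α | v.Perm w}.Finite := by
    refine (w.permutations.toFinset.finite_toSet).subset ?_
    intro v hv
    simp [List.mem_permutations]
    exact hv
  have hwf : {v : List α | v.Perm w}.WellFoundedOn (· < ·) := hfin.wellFoundedOn
  -- the submodule of the polynomials which agree with a combination of good words
  let K : Submodule F (MonoidAlgebra F (FreeMonoid α)) :=
    { carrier := {g | ∃ f ∈ Sp F {v : List α | v.Perm w ∧ GoodJ d v},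
        ∀ a : α → C, (∀ i, a i ∈ J) → ev a f = ev a g}
      add_mem' := by
        rintro g g' ⟨f, hf, h⟩ ⟨f', hf', h'⟩
        exact ⟨f + f', Submodule.add_mem _ hf hf', fun a ha => by
          rw [map_add, map_add, h a ha, h' a ha]⟩
      zero_mem' := ⟨0, Submodule.zero_mem _, fun a _ => rfl⟩
      smul_mem' := by
        rintro s g ⟨f, hf, h⟩
        exact ⟨s • f, Submodule.smul_mem _ _ hf, fun a ha => by
          rw [map_smul, map_smul, h a ha]⟩ }
  have hmain : ∀ v ∈ {v : List α | v.Perm w}, m F v ∈ K := by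
    intro v0 hv0
    apply Set.WellFoundedOn.induction hwf (P := fun v => m F v ∈ K) hv0
    intro v hv ih
    have hv' : v.Perm w := hv
    by_cases hg : GoodJ d v
    · exact ⟨m F v, m_mem ⟨hv', hg⟩, fun a _ => rfl⟩
    · obtain ⟨f, hf1, hf2⟩ := step J hJ c hc1 hc v hg
      have hle : Sp F (Lt v) ≤ K := by
        rw [Sp, Submodule.span_le]
        rintro _ ⟨v', ⟨h1, h2⟩, rfl⟩
        exact ih v' (h1.trans hv') h2
      have h3 : f ∈ K := ⟨0, Submodule.zero_mem _, fun a ha => by rw [hf2 a ha, map_zero]⟩
      have h4 : m F v = f - (f - m F v) := by abel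
      rw [h4]
      exact K.sub_mem h3 (hle hf1)
  obtain ⟨f, hf, h⟩ := hmain w (List.Perm.refl w)
  refine ⟨f, hf, fun a ha => ?_⟩
  rw [h a ha, ev_m]

end red

end Pool.Agent.U540.SJ
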